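import Pool.Agent.Lib_helper13.Robin.W.NL
import Pool.Agent.Lib_helper13.Robin.W.PL
import Pool.Agent.Lib_helper13.Robin.W.RE

/-! Block XB (helper38). Cites `refl_ext` (RE) and `NH.mono` (NL). -/

namespace Pool.Agent.Lib_helper38.Robin

open MeasureTheory Set Metric Filter Topology
open scoped RealInnerProductSpace ContDiff
open Pool.Agent.Lib_helper13.Robin

noncomputable section

variable {d m : ℕ} (P : PD d m)

theorem XB_two : (2 : WithTop ℕ∞) ≤ ∞ := ENat.LEInfty.out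

/-- second partials as values of the second derivative -/
theorem XB_pd_pd {f : E d → ℝ} {x : E d} (hf : ContDiffAt ℝ 2 f x) (a b : E d) :
    pd a (pd b f) x = fderiv ℝ (fderiv ℝ f) x a b := by
  have h1 : DifferentiableAt ℝ (fderiv ℝ f) x :=
    (hf.fderiv_right (m := 1) (by norm_num)).differentiableAt one_ne_zero
  unfold pd
  have h2 : HasFDerivAt (fun y => fderiv ℝ f y b)
      ((ContinuousLinearMap.apply ℝ ℝ b).comp (fderiv ℝ (fderiv ℝ f) x)) x :=
    (ContinuousLinearMap.apply ℝ ℝ b).hasFDerivAt.comp x h1.hasFDerivAt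
  rw [h2.fderiv]
  rfl

theorem XB_grad_norm (f : E d → ℝ) (x : E d) : ‖gradient f x‖ = ‖fderiv ℝ f x‖ := by
  unfold gradient
  exact LinearIsometryEquiv.norm_map _ _

theorem XB_grad_inner (f : E d → ℝ) (x a : E d) : ⟪a, gradient f x⟫ = fderiv ℝ f x a := by
  unfold gradient
  rw [real_inner_comm]
  exact InnerProductSpace.toDual_symm_apply

theorem XB_local {f : E d → ℝ} {q : E d} {r : ℝ} (hr : 0 < r)
    (hf : ContDiffOn ℝ ∞ f (ball q r)) :
    ∃ C, 0 ≤ C ∧ ∀ x ∈ closedBall q (r / 2), |f x| ≤ C ∧ ‖fderiv ℝ f x‖ ≤ C ∧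
      ‖fderiv ℝ (fderiv ℝ f) x‖ ≤ C := by
  have hsub : closedBall q (r / 2) ⊆ ball q r := closedBall_subset_ball (by linarith)
  have hF : ContDiffOn ℝ ∞ (fderiv ℝ f) (ball q r) := hf.fderiv_of_isOpen isOpen_ball (by norm_num)
  have hF2 : ContDiffOn ℝ ∞ (fderiv ℝ (fderiv ℝ f)) (ball q r) :=
    hF.fderiv_of_isOpen isOpen_ball (by norm_num)
  have hK := isCompact_closedBall q (r / 2)
  obtain ⟨C1, h1⟩ := hK.exists_bound_of_continuousOn (hf.continuousOn.mono hsub)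
  obtain ⟨C2, h2⟩ := hK.exists_bound_of_continuousOn (hF.continuousOn.mono hsub)
  obtain ⟨C3, h3⟩ := hK.exists_bound_of_continuousOn (f := fderiv ℝ (fderiv ℝ f))
    (hF2.continuousOn.mono hsub)
  refine ⟨max (max C1 C2) (max C3 0), le_max_of_le_right (le_max_right _ _), fun x hx => ?_⟩
  refine ⟨?_, ?_, ?_⟩
  · exact (h1 x hx).trans (le_max_of_le_left (le_max_left _ _))
  · exact (h2 x hx).trans (le_max_of_le_left (le_max_right _ _))
  · exact (h3 x hx).trans (le_max_of_le_right (le_max_left _ _))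

/-- the local form -/
theorem XB_nhds {p : E d} {R : ℝ} {w : E d → ℝ} (hC : P.Con p R) (hr : P.rk p = 2)
    (h : NH P (ball p R) w) {q : E d} (hq : q ∈ ball p R) (hq0 : P.rho p q ≠ 0) :
    ∃ r > 0, ∃ C, 0 ≤ C ∧ ∀ x ∈ P.Om ∩ ball q r, |w x| ≤ C ∧ ‖fderiv ℝ w x‖ ≤ C ∧
      ‖fderiv ℝ (fderiv ℝ w) x‖ ≤ C ∧
      ∀ i ∈ P.A p, |fderiv ℝ w x (P.ν i)| ≤ C * (P.b i - ⟪P.ν i, x⟫) := by
  by_cases hcl : q ∈ P.cl
  swap
  · obtain ⟨r, hr0, hrs⟩ := Metric.isOpen_iff.1 P.isClosed_cl.isOpen_compl q hcl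
    refine ⟨r, hr0, 0, le_rfl, fun x hx => ?_⟩
    exact absurd (P.Om_sub_cl hx.1) (hrs hx.2)
  obtain ⟨r0, hCon0⟩ := P.exists_con hcl
  have hdist : 0 < R - dist q p := by rw [mem_ball] at hq; linarith
  set r1 : ℝ := min r0 (R - dist q p) with hr1
  have hr1pos : 0 < r1 := lt_min hCon0.pos hdist
  have hCon : P.Con q r1 := hCon0.mono hr1pos (min_le_left _ _)
  have hsub : ball q r1 ⊆ ball p R := by
    intro x hx
    rw [mem_ball] at hx ⊢
    have h1 := dist_triangle x q p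
    have h2 : r1 ≤ R - dist q p := min_le_right _ _
    linarith
  -- lower bound for inactive constraints
  have hin : ∀ i ∉ P.A q, ∀ x ∈ ball q (r1 / 2), r1 / 2 ≤ P.b i - ⟪P.ν i, x⟫ := by
    intro i hi x hx
    have h1 := (hCon.2.2 i).resolve_left hi
    have h2 : ⟪P.ν i, x - q⟫ ≤ ‖x - q‖ := by
      calc ⟪P.ν i, x - q⟫ ≤ ‖P.ν i‖ * ‖x - q‖ := real_inner_le_norm _ _
        _ = ‖x - q‖ := by rw [P.unit, one_mul]
    rw [mem_ball, dist_eq_norm] at hx
    rw [inner_sub_right] at h2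
    linarith
  have hfin : ∀ (C : ℝ), 0 ≤ C → ∀ i ∉ P.A q, ∀ x ∈ ball q (r1 / 2), ‖fderiv ℝ w x‖ ≤ C →
      |fderiv ℝ w x (P.ν i)| ≤ (C + 2 * C / r1) * (P.b i - ⟪P.ν i, x⟫) := by
    intro C hC0 i hi x hx hb
    have h1 : |fderiv ℝ w x (P.ν i)| ≤ C := by
      have := (fderiv ℝ w x).le_opNorm (P.ν i)
      rw [P.unit, mul_one] at this
      exact this.trans hb
    have h2 := hin i hi x hx
    have h3 : C = 2 * C / r1 * (r1 / 2) := by field_simp
    calc |fderiv ℝ w x (P.ν i)| ≤ C := h1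
      _ = 2 * C / r1 * (r1 / 2) := h3
      _ ≤ (C + 2 * C / r1) * (P.b i - ⟪P.ν i, x⟫) := by
          apply mul_le_mul _ h2 (by positivity) (by positivity)
          linarith
  have hrk : P.rk q < 2 := by rw [← hr]; exact hC.rk_lt hq hq0
  rcases Nat.lt_or_ge (P.rk q) 1 with hk | hk
  · -- interior point
    have hO : q ∈ P.Om := (P.rk_eq_zero hcl).1 (by omega)
    have hA : P.A q = ∅ := (P.A_eq_empty_iff hcl).2 hO
    have hsubO : ball q r1 ⊆ P.Om := by
      intro x hx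
      rw [hCon.mem_Om_iff hx]
      intro i hi
      rw [hA] at hi
      exact absurd hi (by simp)
    obtain ⟨C, hC0, hCb⟩ := XB_local hr1pos (h.sm.mono (subset_inter hsubO hsub))
    refine ⟨r1 / 2, by positivity, C + 2 * C / r1, by positivity, fun x hx => ?_⟩
    have hx2 := hCb x (ball_subset_closedBall hx.2)
    have hle : C ≤ C + 2 * C / r1 := by
      have : 0 ≤ 2 * C / r1 := by positivity
      linarith
    refine ⟨hx2.1.trans hle, hx2.2.1.trans hle, hx2.2.2.trans hle, fun i _ => ?_⟩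
    exact hfin C hC0 i (by rw [hA]; simp) x hx.2 hx2.2.1
  · -- facet point
    obtain ⟨i0, hA⟩ := P.rk_eq_one hcl (by omega)
    obtain ⟨w', hw's, -, hw'e, hw'r⟩ := refl_ext P hCon hA (h.mono hsub)
    obtain ⟨C, hC0, hCb⟩ := XB_local hr1pos hw's
    have heq : ∀ x ∈ P.Om ∩ ball q r1, w =ᶠ[𝓝 x] w' := by
      intro x hx
      filter_upwards [(P.isOpen_Om.inter isOpen_ball).mem_nhds hx] with y hy
      exact (hw'e y hy).symm
    refine ⟨r1 / 2, by positivity, C + 2 * C / r1, by positivity, fun x hx => ?_⟩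
    have hx1 : x ∈ P.Om ∩ ball q r1 := ⟨hx.1, ball_subset_ball (by linarith) hx.2⟩
    have hx2 := hCb x (ball_subset_closedBall hx.2)
    have e1 : fderiv ℝ w x = fderiv ℝ w' x := (heq x hx1).fderiv_eq
    have e2 : fderiv ℝ (fderiv ℝ w) x = fderiv ℝ (fderiv ℝ w') x := (heq x hx1).fderiv.fderiv_eq
    have hle : C ≤ C + 2 * C / r1 := by
      have : 0 ≤ 2 * C / r1 := by positivity
      linarith
    refine ⟨?_, by rw [e1]; exact hx2.2.1.trans hle, by rw [e2]; exact hx2.2.2.trans hle,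
      fun i _ => ?_⟩
    · rw [← hw'e x hx1]
      exact hx2.1.trans hle
    by_cases hi : i ∈ P.A q
    swap
    · exact hfin C hC0 i hi x hx.2 (by rw [e1]; exact hx2.2.1)
    have hi0 : i = i0 := by rw [hA] at hi; exact hi
    subst hi0
    have hbq : ⟪P.ν i, q⟫ = P.b i := hi
    set τ : ℝ := P.b i - ⟪P.ν i, x⟫ with hτ
    have hτ0 : 0 < τ := by have := hx.1 i; linarith
    set x' : E d := x + τ • P.ν i with hx'
    have hνν := P.inner_ν_self i
    have hx'b : ⟪P.ν i, x'⟫ = P.b i := by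
      rw [hx', inner_add_right, inner_smul_right, hνν]
      linarith
    have hx'd : ‖x' - q‖ ≤ ‖x - q‖ := by
      have h1 : ‖x - q‖ ^ 2 = ‖x' - q‖ ^ 2 + τ ^ 2 := by
        have h2 : x - q = (x' - q) - τ • P.ν i := by rw [hx']; abel
        rw [h2, norm_sub_sq_real, inner_smul_right, real_inner_comm, inner_sub_right, hx'b, hbq,
          norm_smul, P.unit, Real.norm_eq_abs, mul_one, sq_abs]
        ring
      have h3 : ‖x' - q‖ ^ 2 ≤ ‖x - q‖ ^ 2 := by nlinarith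
      exact (sq_le_sq₀ (norm_nonneg _) (norm_nonneg _)).1 h3
    have hxm : x ∈ closedBall q (r1 / 2) := ball_subset_closedBall hx.2
    have hx'm : x' ∈ closedBall q (r1 / 2) := by
      rw [mem_closedBall, dist_eq_norm] at hxm ⊢
      exact hx'd.trans hxm
    have hsubc : closedBall q (r1 / 2) ⊆ ball q r1 := closedBall_subset_ball (by linarith)
    have hdiff2 : ∀ y ∈ ball q r1, DifferentiableAt ℝ (fderiv ℝ w') y := by
      intro y hy
      have h1 : ContDiffAt ℝ ∞ w' y := hw's.contDiffAt (isOpen_ball.mem_nhds hy)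
      exact ((h1.of_le XB_two).fderiv_right (m := 1) (by norm_num)).differentiableAt one_ne_zero
    -- vanishing normal derivative
    have hzero : fderiv ℝ w' x' (P.ν i) = 0 := by
      have hx'B : x' ∈ ball q r1 := hsubc hx'm
      have hrx : P.refl i x' = x' := by
        unfold PD.refl
        rw [hx'b, sub_self, mul_zero, zero_smul, add_zero]
      have hd1 : HasFDerivAt w' (fderiv ℝ w' x') x' :=
        ((hw's.contDiffAt (isOpen_ball.mem_nhds hx'B)).differentiableAt (by norm_num)).hasFDerivAt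
      have hline : HasDerivAt (fun t : ℝ => x' + t • P.ν i) (P.ν i) 0 := by
        simpa using ((hasDerivAt_id (0 : ℝ)).smul_const (P.ν i)).const_add x'
      have hline' : HasDerivAt (fun t : ℝ => x' + (-t) • P.ν i) (-P.ν i) 0 := by
        simpa using ((hasDerivAt_neg (0 : ℝ)).smul_const (P.ν i)).const_add x'
      have hd1a : HasFDerivAt w' (fderiv ℝ w' x') ((fun t : ℝ => x' + t • P.ν i) 0) := by
        simpa using hd1
      have hd1b : HasFDerivAt w' (fderiv ℝ w' x') ((fun t : ℝ => x' + (-t) • P.ν i) 0) := by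
        simpa using hd1
      have g1 : HasDerivAt (fun t : ℝ => w' (x' + t • P.ν i)) (fderiv ℝ w' x' (P.ν i)) 0 :=
        hd1a.comp_hasDerivAt 0 hline
      have g2 : HasDerivAt (fun t : ℝ => w' (x' + (-t) • P.ν i)) (fderiv ℝ w' x' (-P.ν i)) 0 :=
        hd1b.comp_hasDerivAt 0 hline'
      have hev : (fun t : ℝ => w' (x' + (-t) • P.ν i)) =ᶠ[𝓝 0]
          (fun t : ℝ => w' (x' + t • P.ν i)) := by
        have hcont : ContinuousAt (fun t : ℝ => x' + t • P.ν i) 0 := hline.continuousAt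
        have h0 : (fun t : ℝ => x' + t • P.ν i) 0 ∈ ball q r1 := by simpa using hx'B
        filter_upwards [hcont.preimage_mem_nhds (isOpen_ball.mem_nhds h0)] with t ht
        have h1 : P.refl i (x' + t • P.ν i) = x' + (-t) • P.ν i := by
          unfold PD.refl
          rw [inner_add_right, inner_smul_right, hνν, hx'b, mul_one, add_assoc, ← add_smul]
          congr 2
          ring
        rw [← h1]
        exact hw'r _ ht
      have g3 := g1.congr_of_eventuallyEq hev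
      have g4 := g2.unique g3
      rw [map_neg] at g4
      linarith
    have hL : ‖fderiv ℝ w' x' (P.ν i) - fderiv ℝ w' x (P.ν i)‖ ≤ C * ‖x' - x‖ := by
      refine Convex.norm_image_sub_le_of_norm_hasFDerivWithin_le
        (f := fun y => fderiv ℝ w' y (P.ν i))
        (f' := fun y => (ContinuousLinearMap.apply ℝ ℝ (P.ν i)).comp (fderiv ℝ (fderiv ℝ w') y))
        (s := closedBall q (r1 / 2)) (fun y hy => ?_) (fun y hy => ?_) (convex_closedBall _ _)
        hxm hx'm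
      · exact ((ContinuousLinearMap.apply ℝ ℝ (P.ν i)).hasFDerivAt.comp y
          (hdiff2 y (hsubc hy)).hasFDerivAt).hasFDerivWithinAt
      · refine ContinuousLinearMap.opNorm_le_bound _ hC0 fun z => ?_
        have h1 : ‖fderiv ℝ (fderiv ℝ w') y z (P.ν i)‖ ≤
            ‖fderiv ℝ (fderiv ℝ w') y z‖ * ‖P.ν i‖ := ContinuousLinearMap.le_opNorm _ _
        have h2 : ‖fderiv ℝ (fderiv ℝ w') y z‖ ≤ ‖fderiv ℝ (fderiv ℝ w') y‖ * ‖z‖ :=
          ContinuousLinearMap.le_opNorm _ _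
        rw [P.unit, mul_one] at h1
        show ‖fderiv ℝ (fderiv ℝ w') y z (P.ν i)‖ ≤ C * ‖z‖
        exact h1.trans (h2.trans (mul_le_mul_of_nonneg_right (hCb y hy).2.2 (norm_nonneg _)))
    rw [hzero, zero_sub, norm_neg, Real.norm_eq_abs] at hL
    have hxx : ‖x' - x‖ = τ := by
      rw [hx', add_sub_cancel_left, norm_smul, P.unit, mul_one, Real.norm_eq_abs, abs_of_pos hτ0]
    rw [hxx] at hL
    rw [e1]
    exact hL.trans (mul_le_mul_of_nonneg_right hle hτ0.le)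

/-- **XB.** bounds up to the open facets, away from the edge -/
theorem nh_bounds {p : E d} {R : ℝ} {w : E d → ℝ} (hC : P.Con p R) (hr : P.rk p = 2)
    (h : NH P (ball p R) w) {K : Set (E d)} (hK : IsCompact K) (hKs : K ⊆ ball p R)
    (hK0 : ∀ x ∈ K, P.rho p x ≠ 0) :
    ∃ C, ∀ x ∈ P.Om ∩ K, |w x| ≤ C ∧ ‖gradient w x‖ ≤ C ∧
      (∀ j k, |pd (bv k) (pd (bv j) w) x| ≤ C) ∧
      ∀ i ∈ P.A p, |⟪P.ν i, gradient w x⟫| ≤ C * (P.b i - ⟪P.ν i, x⟫) := by
  have key : ∃ C, 0 ≤ C ∧ ∀ x ∈ P.Om ∩ K, |w x| ≤ C ∧ ‖fderiv ℝ w x‖ ≤ C ∧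
      ‖fderiv ℝ (fderiv ℝ w) x‖ ≤ C ∧
      ∀ i ∈ P.A p, |fderiv ℝ w x (P.ν i)| ≤ C * (P.b i - ⟪P.ν i, x⟫) := by
    refine hK.induction_on (p := fun s => ∃ C, 0 ≤ C ∧ ∀ x ∈ P.Om ∩ s, |w x| ≤ C ∧
      ‖fderiv ℝ w x‖ ≤ C ∧ ‖fderiv ℝ (fderiv ℝ w) x‖ ≤ C ∧
      ∀ i ∈ P.A p, |fderiv ℝ w x (P.ν i)| ≤ C * (P.b i - ⟪P.ν i, x⟫)) ?_ ?_ ?_ ?_
    · exact ⟨0, le_rfl, fun x hx => absurd hx.2 (by simp)⟩
    · rintro s t hst ⟨C, hC0, hCt⟩
      exact ⟨C, hC0, fun x hx => hCt x ⟨hx.1, hst hx.2⟩⟩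
    · rintro s t ⟨C, hC0, hCs⟩ ⟨C', hC0', hCt⟩
      refine ⟨C + C', by positivity, fun x hx => ?_⟩
      have hbx : ∀ i, 0 ≤ P.b i - ⟪P.ν i, x⟫ := fun i => by have := hx.1 i; linarith
      rcases hx.2 with hxs | hxt
      · obtain ⟨a1, a2, a3, a4⟩ := hCs x ⟨hx.1, hxs⟩
        exact ⟨a1.trans (by linarith), a2.trans (by linarith), a3.trans (by linarith),
          fun i hi => (a4 i hi).trans (mul_le_mul_of_nonneg_right (by linarith) (hbx i))⟩
      · obtain ⟨a1, a2, a3, a4⟩ := hCt x ⟨hx.1, hxt⟩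
        exact ⟨a1.trans (by linarith), a2.trans (by linarith), a3.trans (by linarith),
          fun i hi => (a4 i hi).trans (mul_le_mul_of_nonneg_right (by linarith) (hbx i))⟩
    · intro q hq
      obtain ⟨r, hr0, C, hC0, hCb⟩ := XB_nhds P hC hr h (hKs hq) (hK0 q hq)
      exact ⟨ball q r, mem_nhdsWithin_of_mem_nhds (ball_mem_nhds q hr0), C, hC0, hCb⟩
  obtain ⟨C, hC0, hCb⟩ := key
  refine ⟨C, fun x hx => ?_⟩
  obtain ⟨a1, a2, a3, a4⟩ := hCb x hx
  have hxR : x ∈ P.Om ∩ ball p R := ⟨hx.1, hKs hx.2⟩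
  have hcd : ContDiffAt ℝ 2 w x :=
    (h.sm.contDiffAt ((P.isOpen_Om.inter isOpen_ball).mem_nhds hxR)).of_le XB_two
  refine ⟨a1, by rw [XB_grad_norm]; exact a2, fun j k => ?_, fun i hi => ?_⟩
  · rw [XB_pd_pd hcd]
    have h1 : ‖fderiv ℝ (fderiv ℝ w) x (bv k) (bv j)‖ ≤
        ‖fderiv ℝ (fderiv ℝ w) x (bv k)‖ * ‖(bv j : E d)‖ := ContinuousLinearMap.le_opNorm _ _
    have h2 : ‖fderiv ℝ (fderiv ℝ w) x (bv k)‖ ≤
        ‖fderiv ℝ (fderiv ℝ w) x‖ * ‖(bv k : E d)‖ := ContinuousLinearMap.le_opNorm _ _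
    have hn : ∀ l : Fin d, ‖(bv l : E d)‖ = 1 := fun l => by simp [bv]
    rw [hn, mul_one] at h1 h2
    exact h1.trans (h2.trans a3)
  · rw [XB_grad_inner]
    exact a4 i hi

end

end Pool.Agent.Lib_helper38.Robin
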