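import Pool.Agent.Lib_helper13.Robin.W.NL
import Pool.Agent.Lib_helper13.Robin.W.XB

/-! Block XM (helper38). Cites `nh_bounds` (XB). -/

namespace Pool.Agent.Lib_helper38.Robin

open MeasureTheory Set Metric Filter Topology
open scoped RealInnerProductSpace ContDiff
open Pool.Agent.Lib_helper13.Robin

noncomputable section

variable {d m : ℕ} (P : PD d m)

theorem XM_two : (2 : WithTop ℕ∞) ≤ ∞ := ENat.LEInfty.out

/-- second partials as values of the second derivative -/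
theorem XM_pd_pd {f : E d → ℝ} {x : E d} (hf : ContDiffAt ℝ 2 f x) (a b : E d) :
    pd a (pd b f) x = fderiv ℝ (fderiv ℝ f) x a b := by
  have h1 : DifferentiableAt ℝ (fderiv ℝ f) x :=
    (hf.fderiv_right (m := 1) (by norm_num)).differentiableAt one_ne_zero
  unfold pd
  have h2 : HasFDerivAt (fun y => fderiv ℝ f y b)
      ((ContinuousLinearMap.apply ℝ ℝ b).comp (fderiv ℝ (fderiv ℝ f) x)) x :=
    (ContinuousLinearMap.apply ℝ ℝ b).hasFDerivAt.comp x h1.hasFDerivAt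
  rw [h2.fderiv]
  rfl

theorem XM_grad_norm (f : E d → ℝ) (x : E d) : ‖gradient f x‖ = ‖fderiv ℝ f x‖ := by
  unfold gradient
  exact LinearIsometryEquiv.norm_map _ _

theorem XM_grad_inner (f : E d → ℝ) (x a : E d) : ⟪a, gradient f x⟫ = fderiv ℝ f x a := by
  unfold gradient
  rw [real_inner_comm]
  exact InnerProductSpace.toDual_symm_apply

/-- bilinear forms are bounded by their matrix coefficients -/
theorem XM_bilin {B : E d →L[ℝ] E d →L[ℝ] ℝ} {C : ℝ}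
    (h : ∀ j k, |B (bv k) (bv j)| ≤ C) {u v : E d} (hu : ‖u‖ ≤ 1) (hv : ‖v‖ ≤ 1) :
    |B u v| ≤ d * (d * C) := by
  have hs : ∀ z : E d, z = ∑ l, z l • bv l := by
    intro z
    have := (EuclideanSpace.basisFun (Fin d) ℝ).sum_repr z
    simpa using this.symm
  have hc : ∀ (z : E d), ‖z‖ ≤ 1 → ∀ l, |z l| ≤ 1 := by
    intro z hz l
    exact (PiLp.norm_apply_le z l).trans hz
  have h1 : B u v = ∑ k, ∑ j, u k * (v j * B (bv k) (bv j)) := by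
    conv_lhs => rw [hs u, hs v]
    simp only [map_sum, map_smul, sum_apply, smul_apply, smul_eq_mul,
      Finset.mul_sum]
    rw [Finset.sum_comm]
    refine Finset.sum_congr rfl fun k _ => Finset.sum_congr rfl fun j _ => ?_
    ring
  have h2 : ∀ k j, |u k * (v j * B (bv k) (bv j))| ≤ C := by
    intro k j
    rw [abs_mul, abs_mul]
    have a1 := hc u hu k
    have a2 := hc v hv j
    have a3 := h j k
    have a4 : |v j| * |B (bv k) (bv j)| ≤ 1 * C :=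
      mul_le_mul a2 a3 (abs_nonneg _) zero_le_one
    have a5 : |u k| * (|v j| * |B (bv k) (bv j)|) ≤ 1 * (1 * C) :=
      mul_le_mul a1 a4 (by positivity) zero_le_one
    linarith
  rw [h1]
  calc |∑ k, ∑ j, u k * (v j * B (bv k) (bv j))|
      ≤ ∑ k, |∑ j, u k * (v j * B (bv k) (bv j))| := Finset.abs_sum_le_sum_abs _ _
    _ ≤ ∑ _k : Fin d, ∑ _j : Fin d, C := Finset.sum_le_sum fun k _ =>
        (Finset.abs_sum_le_sum_abs _ _).trans (Finset.sum_le_sum fun j _ => h2 k j)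
    _ = d * (d * C) := by simp

/-- a bounded continuous function on the open interval is integrable -/
theorem XM_int {om C : ℝ} (hom : 0 < om) {f : ℝ → ℝ} (hf : ContinuousOn f (Ioo 0 om))
    (hb : ∀ θ ∈ Ioo 0 om, |f θ| ≤ C) : IntervalIntegrable f volume 0 om := by
  rw [intervalIntegrable_iff_integrableOn_Ioo_of_le hom.le]
  refine ⟨hf.aestronglyMeasurable measurableSet_Ioo, ?_⟩
  refine HasFiniteIntegral.restrict_of_bounded (C := C) (by simp) ?_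
  rw [ae_restrict_iff' measurableSet_Ioo]
  exact ae_of_all _ fun θ hθ => hb θ hθ

/-- differentiation under the integral sign -/
theorem XM_deriv {om C ρ0 ε : ℝ} (hom : 0 < om) (hε : 0 < ε) {F F' : ℝ → ℝ → ℝ}
    (hF : ∀ ρ ∈ Ioo (ρ0 - ε) (ρ0 + ε), ContinuousOn (F ρ) (Ioo 0 om))
    (hF' : ContinuousOn (F' ρ0) (Ioo 0 om))
    (hFb : ∀ ρ ∈ Ioo (ρ0 - ε) (ρ0 + ε), ∀ θ ∈ Ioo 0 om, |F ρ θ| ≤ C)
    (hFb' : ∀ ρ ∈ Ioo (ρ0 - ε) (ρ0 + ε), ∀ θ ∈ Ioo 0 om, |F' ρ θ| ≤ C)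
    (hd : ∀ ρ ∈ Ioo (ρ0 - ε) (ρ0 + ε), ∀ θ ∈ Ioo 0 om, HasDerivAt (fun ρ => F ρ θ) (F' ρ θ) ρ) :
    HasDerivAt (fun ρ => ∫ θ in (0 : ℝ)..om, F ρ θ) (∫ θ in (0 : ℝ)..om, F' ρ0 θ) ρ0 := by
  have hs : Ioo (ρ0 - ε) (ρ0 + ε) ∈ 𝓝 ρ0 := Ioo_mem_nhds (by linarith) (by linarith)
  have h0 : ρ0 ∈ Ioo (ρ0 - ε) (ρ0 + ε) := ⟨by linarith, by linarith⟩
  have hu : uIoc (0 : ℝ) om = Ioc 0 om := uIoc_of_le hom.le
  have hmeas : ∀ f : ℝ → ℝ, ContinuousOn f (Ioo 0 om) →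
      AEStronglyMeasurable f (volume.restrict (uIoc 0 om)) := by
    intro f hf
    rw [hu, ← restrict_Ioo_eq_restrict_Ioc]
    exact hf.aestronglyMeasurable measurableSet_Ioo
  have hne : ∀ᵐ t : ℝ, t ≠ om := by
    simp [ae_iff, measure_singleton]
  refine (intervalIntegral.hasDerivAt_integral_of_dominated_loc_of_deriv_le
    (bound := fun _ => C) hs ?_ ?_ ?_ ?_ ?_ ?_).2
  · filter_upwards [hs] with ρ hρ
    exact hmeas _ (hF ρ hρ)
  · exact XM_int hom (hF ρ0 h0) (hFb ρ0 h0)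
  · exact hmeas _ hF'
  · filter_upwards [hne] with t ht hti ρ hρ
    rw [hu] at hti
    exact hFb' ρ hρ t ⟨hti.1, lt_of_le_of_ne hti.2 ht⟩
  · simp
  · filter_upwards [hne] with t ht hti ρ hρ
    rw [hu] at hti
    exact hd ρ hρ t ⟨hti.1, lt_of_le_of_ne hti.2 ht⟩

/-- radial direction -/
def XM_er (e1 e2 : E d) (θ : ℝ) : E d := Real.cos θ • e1 + Real.sin θ • e2

/-- angular direction -/
def XM_et (e1 e2 : E d) (θ : ℝ) : E d := (-Real.sin θ) • e1 + Real.cos θ • e2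

section frame

variable {P} {p : E d} {i j : Fin m} {e1 e2 : E d} {om : ℝ}

theorem XM_norm (n1 : ‖e1‖ = 1) (n2 : ‖e2‖ = 1) (orth : ⟪e1, e2⟫ = (0 : ℝ)) (a b : ℝ)
    (hab : a ^ 2 + b ^ 2 = 1) : ‖a • e1 + b • e2‖ = 1 := by
  have h1 : ‖a • e1 + b • e2‖ ^ 2 = 1 := by
    rw [norm_add_sq_real, inner_smul_left, inner_smul_right, orth, norm_smul, norm_smul, n1, n2,
      Real.norm_eq_abs, Real.norm_eq_abs, mul_one, mul_one, sq_abs, sq_abs]
    simp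
    exact hab
  have h2 : 0 ≤ ‖a • e1 + b • e2‖ := norm_nonneg _
  nlinarith

theorem XM_er_norm (hF : Frame P p i j e1 e2 om) (θ : ℝ) : ‖XM_er e1 e2 θ‖ = 1 :=
  XM_norm hF.n1 hF.n2 hF.orth _ _ (Real.cos_sq_add_sin_sq θ)

theorem XM_et_norm (hF : Frame P p i j e1 e2 om) (θ : ℝ) : ‖XM_et e1 e2 θ‖ = 1 :=
  XM_norm hF.n1 hF.n2 hF.orth _ _ (by rw [neg_sq]; exact Real.sin_sq_add_cos_sq θ)

theorem XM_er_mem (hF : Frame P p i j e1 e2 om) (θ : ℝ) : XM_er e1 e2 θ ∈ P.N p := by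
  rw [hF.N_eq]
  exact Submodule.add_mem _ (Submodule.smul_mem _ _ (Submodule.subset_span (by simp)))
    (Submodule.smul_mem _ _ (Submodule.subset_span (by simp)))

theorem XM_rk (hF : Frame P p i j e1 e2 om) : P.rk p = 2 := by
  unfold PD.rk
  rw [hF.N_eq]
  have hli : LinearIndependent ℝ ![e1, e2] := by
    rw [LinearIndependent.pair_iff]
    intro a b hab
    have i11 : ⟪e1, e1⟫ = (1 : ℝ) := by rw [real_inner_self_eq_norm_sq, hF.n1, one_pow]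
    have i22 : ⟪e2, e2⟫ = (1 : ℝ) := by rw [real_inner_self_eq_norm_sq, hF.n2, one_pow]
    have i21 : ⟪e2, e1⟫ = (0 : ℝ) := by rw [real_inner_comm]; exact hF.orth
    have h1 : ⟪a • e1 + b • e2, e1⟫ = (0 : ℝ) := by rw [hab, inner_zero_left]
    have h2 : ⟪a • e1 + b • e2, e2⟫ = (0 : ℝ) := by rw [hab, inner_zero_left]
    rw [inner_add_left, inner_smul_left, inner_smul_left, i11, i21] at h1
    rw [inner_add_left, inner_smul_left, inner_smul_left, i22, hF.orth] at h2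
    simp only [conj_trivial, mul_one, mul_zero, add_zero, zero_add] at h1 h2
    exact ⟨h1, h2⟩
  have h10 := finrank_span_eq_card hli
  have h11 : range ![e1, e2] = {e1, e2} := by
    simp only [Matrix.range_cons, Matrix.range_empty, union_empty, singleton_union]
  rw [h11, Fintype.card_fin] at h10
  exact h10

theorem XM_rho (hF : Frame P p i j e1 e2 om) {s : E d} (hs : s ∈ (P.N p)ᗮ) {ρ : ℝ} (hρ : 0 < ρ)
    (θ : ℝ) : P.rho p (p + s + ρ • XM_er e1 e2 θ) = ρ := by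
  unfold PD.rho
  have h1 : p + s + ρ • XM_er e1 e2 θ - p = s + ρ • XM_er e1 e2 θ := by abel
  rw [h1, map_add, (P.N p).starProjection_apply_eq_zero_iff.2 hs, zero_add,
    Submodule.starProjection_eq_self_iff.2 (Submodule.smul_mem _ _ (XM_er_mem hF θ)),
    norm_smul, XM_er_norm hF, mul_one, Real.norm_eq_abs, abs_of_pos hρ]

/-- slack of the facet `i` -/
theorem XM_slack_i (hF : Frame P p i j e1 e2 om) {s : E d} (hs : s ∈ (P.N p)ᗮ) (ρ θ : ℝ) :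
    P.b i - ⟪P.ν i, p + s + ρ • XM_er e1 e2 θ⟫ = ρ * Real.sin θ := by
  have hi : i ∈ P.A p := by rw [hF.hA]; simp
  have h1 : ⟪P.ν i, p⟫ = P.b i := hi
  have h2 : ⟪P.ν i, s⟫ = 0 := P.mem_N_orth.1 hs i hi
  have h3 : ⟪P.ν i, XM_er e1 e2 θ⟫ = -Real.sin θ := by
    have i22 : ⟪e2, e2⟫ = (1 : ℝ) := by rw [real_inner_self_eq_norm_sq, hF.n2, one_pow]
    have i21 : ⟪e2, e1⟫ = (0 : ℝ) := by rw [real_inner_comm]; exact hF.orth
    rw [hF.νi, XM_er, inner_neg_left, inner_add_right, inner_smul_right, inner_smul_right, i21, i22]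
    ring
  rw [inner_add_right, inner_add_right, inner_smul_right, h1, h2, h3]
  ring

/-- slack of the facet `j` -/
theorem XM_slack_j (hF : Frame P p i j e1 e2 om) {s : E d} (hs : s ∈ (P.N p)ᗮ) (ρ θ : ℝ) :
    P.b j - ⟪P.ν j, p + s + ρ • XM_er e1 e2 θ⟫ = ρ * Real.sin (om - θ) := by
  have hj : j ∈ P.A p := by rw [hF.hA]; simp
  have h1 : ⟪P.ν j, p⟫ = P.b j := hj
  have h2 : ⟪P.ν j, s⟫ = 0 := P.mem_N_orth.1 hs j hj
  have h3 : ⟪P.ν j, XM_er e1 e2 θ⟫ = -Real.sin (om - θ) := by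
    have i11 : ⟪e1, e1⟫ = (1 : ℝ) := by rw [real_inner_self_eq_norm_sq, hF.n1, one_pow]
    have i22 : ⟪e2, e2⟫ = (1 : ℝ) := by rw [real_inner_self_eq_norm_sq, hF.n2, one_pow]
    have i21 : ⟪e2, e1⟫ = (0 : ℝ) := by rw [real_inner_comm]; exact hF.orth
    rw [hF.νj, XM_er, inner_add_left, inner_smul_left, inner_smul_left, inner_add_right,
      inner_add_right, inner_smul_right, inner_smul_right, inner_smul_right, inner_smul_right,
      i21, i22, i11, hF.orth, Real.sin_sub]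
    simp only [conj_trivial]
    ring
  rw [inner_add_right, inner_add_right, inner_smul_right, h1, h2, h3]
  ring

theorem XM_ball (hF : Frame P p i j e1 e2 om) {s : E d} {R ρ : ℝ} (hρ : 0 < ρ)
    (hρR : ρ < R - ‖s‖) (θ : ℝ) : p + s + ρ • XM_er e1 e2 θ ∈ ball p R := by
  rw [mem_ball, dist_eq_norm]
  have h1 : p + s + ρ • XM_er e1 e2 θ - p = s + ρ • XM_er e1 e2 θ := by abel
  rw [h1]
  have h2 : ‖ρ • XM_er e1 e2 θ‖ = ρ := by
    rw [norm_smul, XM_er_norm hF, mul_one, Real.norm_eq_abs, abs_of_pos hρ]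
  have h3 := norm_add_le s (ρ • XM_er e1 e2 θ)
  rw [h2] at h3
  linarith

theorem XM_mem (hF : Frame P p i j e1 e2 om) {R : ℝ} (hC : P.Con p R) {s : E d}
    (hs : s ∈ (P.N p)ᗮ) {ρ : ℝ} (hρ : ρ ∈ Ioo 0 (R - ‖s‖)) {θ : ℝ} (hθ : θ ∈ Ioo 0 om) :
    p + s + ρ • XM_er e1 e2 θ ∈ P.Om ∩ ball p R := by
  have hb := XM_ball (s := s) hF hρ.1 hρ.2 θ
  refine ⟨?_, hb⟩
  rw [hC.mem_Om_iff hb]
  intro l hl
  have hl1 : ⟪P.ν l, p⟫ = P.b l := hl
  rw [hF.hA] at hl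
  have hπ := hF.omπ
  rcases hl with rfl | hl
  · have h1 := XM_slack_i hF hs ρ θ
    have h2 : 0 < ρ * Real.sin θ :=
      mul_pos hρ.1 (Real.sin_pos_of_pos_of_lt_pi hθ.1 (by linarith [hθ.2]))
    rw [inner_sub_right, hl1]
    linarith
  · rw [mem_singleton_iff] at hl
    subst hl
    have h1 := XM_slack_j hF hs ρ θ
    have h2 : 0 < ρ * Real.sin (om - θ) :=
      mul_pos hρ.1 (Real.sin_pos_of_pos_of_lt_pi (by linarith [hθ.2]) (by linarith [hθ.1]))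
    rw [inner_sub_right, hl1]
    linarith

end frame


theorem XM_hasDeriv_er (e1 e2 : E d) (θ : ℝ) : HasDerivAt (XM_er e1 e2) (XM_et e1 e2 θ) θ :=
  ((Real.hasDerivAt_cos θ).smul_const e1).add ((Real.hasDerivAt_sin θ).smul_const e2)

theorem XM_hasDeriv_et (e1 e2 : E d) (θ : ℝ) : HasDerivAt (XM_et e1 e2) (-XM_er e1 e2 θ) θ := by
  have h1 := ((Real.hasDerivAt_sin θ).neg.smul_const e1).add
    ((Real.hasDerivAt_cos θ).smul_const e2)
  refine h1.congr_deriv ?_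
  unfold XM_er
  rw [neg_add, neg_smul, neg_smul]

section main

variable {P} {p : E d} {i j : Fin m} {e1 e2 : E d} {om R : ℝ} {w : E d → ℝ}

/-- bounds on annular sectors -/
theorem XM_bounds (hF : Frame P p i j e1 e2 om) (hC : P.Con p R) (h : NH P (ball p R) w)
    {s : E d} (hs : s ∈ (P.N p)ᗮ) {ρ1 ρ2 : ℝ} (h1 : 0 < ρ1) (h2 : ρ2 < R - ‖s‖) :
    ∃ C, 0 ≤ C ∧ ∀ ρ ∈ Icc ρ1 ρ2, ∀ θ ∈ Ioo 0 om,
      |w (p + s + ρ • XM_er e1 e2 θ)| ≤ C ∧ ‖fderiv ℝ w (p + s + ρ • XM_er e1 e2 θ)‖ ≤ C ∧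
      (∀ u v : E d, ‖u‖ ≤ 1 → ‖v‖ ≤ 1 →
        |fderiv ℝ (fderiv ℝ w) (p + s + ρ • XM_er e1 e2 θ) u v| ≤ C) ∧
      |fderiv ℝ w (p + s + ρ • XM_er e1 e2 θ) (P.ν i)| ≤ C * (ρ * Real.sin θ) ∧
      |fderiv ℝ w (p + s + ρ • XM_er e1 e2 θ) (P.ν j)| ≤ C * (ρ * Real.sin (om - θ)) := by
  set K : Set (E d) := (fun z : ℝ × ℝ => p + s + z.1 • XM_er e1 e2 z.2) ''
    (Icc ρ1 ρ2 ×ˢ Icc 0 om) with hKdef
  have hK : IsCompact K := by
    apply (isCompact_Icc.prod isCompact_Icc).image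
    unfold XM_er
    fun_prop
  have hKs : K ⊆ ball p R := by
    rintro _ ⟨z, hz, rfl⟩
    exact XM_ball hF (by linarith [hz.1.1]) (by linarith [hz.1.2]) _
  have hK0 : ∀ x ∈ K, P.rho p x ≠ 0 := by
    rintro _ ⟨z, hz, rfl⟩
    have h3 : 0 < z.1 := by linarith [hz.1.1]
    show P.rho p (p + s + z.1 • XM_er e1 e2 z.2) ≠ 0
    rw [XM_rho hF hs h3]
    exact h3.ne'
  obtain ⟨C, hCb⟩ := nh_bounds P hC (XM_rk hF) h hK hKs hK0
  set C' : ℝ := |C| + d * (d * |C|) with hC'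
  have hd : (0 : ℝ) ≤ d * (d * |C|) := by positivity
  refine ⟨C', by positivity, fun ρ hρ θ hθ => ?_⟩
  set x : E d := p + s + ρ • XM_er e1 e2 θ with hx
  have hρ0 : 0 < ρ := by linarith [hρ.1]
  have hxm : x ∈ P.Om ∩ ball p R := XM_mem hF hC hs ⟨hρ0, by linarith [hρ.2]⟩ hθ
  have hxK : x ∈ P.Om ∩ K := ⟨hxm.1, ⟨(ρ, θ), ⟨hρ, hθ.1.le, hθ.2.le⟩, rfl⟩⟩
  obtain ⟨a1, a2, a3, a4⟩ := hCb x hxK
  have hcd : ContDiffAt ℝ 2 w x :=
    (h.sm.contDiffAt ((P.isOpen_Om.inter isOpen_ball).mem_nhds hxm)).of_le XM_two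
  have hCC : C ≤ C' := by have := le_abs_self C; linarith
  have hπ := hF.omπ
  refine ⟨a1.trans hCC, ?_, ?_, ?_, ?_⟩
  · rw [← XM_grad_norm]
    exact a2.trans hCC
  · intro u v hu hv
    have h3 : |fderiv ℝ (fderiv ℝ w) x u v| ≤ d * (d * |C|) := by
      refine XM_bilin (fun j k => ?_) hu hv
      rw [← XM_pd_pd hcd]
      exact (a3 j k).trans (le_abs_self C)
    have := abs_nonneg C
    linarith
  · have h3 := a4 i (by rw [hF.hA]; simp)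
    rw [XM_grad_inner, XM_slack_i hF hs] at h3
    exact h3.trans (mul_le_mul_of_nonneg_right hCC (mul_nonneg hρ0.le
      (Real.sin_pos_of_pos_of_lt_pi hθ.1 (by linarith [hθ.2])).le))
  · have h3 := a4 j (by rw [hF.hA]; simp)
    rw [XM_grad_inner, XM_slack_j hF hs] at h3
    exact h3.trans (mul_le_mul_of_nonneg_right hCC (mul_nonneg hρ0.le
      (Real.sin_pos_of_pos_of_lt_pi (by linarith [hθ.2]) (by linarith [hθ.1])).le))

end main

/-- **XM.** the Fourier modes satisfy ODEs -/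
theorem mode_ode {p : E d} {i j : Fin m} {e1 e2 : E d} {om R : ℝ} {w g : E d → ℝ}
    (hF : Frame P p i j e1 e2 om) (hC : P.Con p R) (h : NH P (ball p R) w)
    (hg : ∀ x ∈ P.Om ∩ ball p R, pd e1 (pd e1 w) x + pd e2 (pd e2 w) x = - g x) (k : ℕ)
    {s : E d} (hs : s ∈ (P.N p)ᗮ) (hsR : ‖s‖ < R) :
    ∃ a' a'' : ℝ → ℝ, ∀ ρ ∈ Ioo 0 (R - ‖s‖),
      HasDerivAt (fun ρ => ∫ θ in (0 : ℝ)..om, w (p + s + yy e1 e2 ρ θ) *
        Real.cos (k * (Real.pi / om) * θ)) (a' ρ) ρ ∧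
      HasDerivAt a' (a'' ρ) ρ ∧
      a'' ρ + a' ρ / ρ - (k * (Real.pi / om)) ^ 2 * (∫ θ in (0 : ℝ)..om,
        w (p + s + yy e1 e2 ρ θ) * Real.cos (k * (Real.pi / om) * θ)) / ρ ^ 2 =
      - ∫ θ in (0 : ℝ)..om, g (p + s + yy e1 e2 ρ θ) * Real.cos (k * (Real.pi / om) * θ) := by
  have hom := hF.om0
  have hπ := hF.omπ
  set κ : ℝ := k * (Real.pi / om) with hκ
  set x : ℝ → ℝ → E d := fun ρ θ => p + s + ρ • XM_er e1 e2 θ with hx
  have hyy : ∀ ρ θ, p + s + yy e1 e2 ρ θ = x ρ θ := fun ρ θ => rfl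
  simp only [hyy]
  have hU : IsOpen (P.Om ∩ ball p R) := P.isOpen_Om.inter isOpen_ball
  have hxm : ∀ ρ ∈ Ioo 0 (R - ‖s‖), ∀ θ ∈ Ioo 0 om, x ρ θ ∈ P.Om ∩ ball p R :=
    fun ρ hρ θ hθ => XM_mem hF hC hs hρ hθ
  have hw1 : ContDiffOn ℝ ∞ (fderiv ℝ w) (P.Om ∩ ball p R) :=
    h.sm.fderiv_of_isOpen hU (by norm_num)
  have hw2 : ContDiffOn ℝ ∞ (fderiv ℝ (fderiv ℝ w)) (P.Om ∩ ball p R) :=
    hw1.fderiv_of_isOpen hU (by norm_num)
  have hd0 : ∀ y ∈ P.Om ∩ ball p R, HasFDerivAt w (fderiv ℝ w y) y := fun y hy =>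
    ((h.sm.contDiffAt (hU.mem_nhds hy)).differentiableAt (by norm_num)).hasFDerivAt
  have hd1 : ∀ y ∈ P.Om ∩ ball p R, HasFDerivAt (fderiv ℝ w) (fderiv ℝ (fderiv ℝ w) y) y :=
    fun y hy => ((hw1.contDiffAt (hU.mem_nhds hy)).differentiableAt (by norm_num)).hasFDerivAt
  have hxρ : ∀ ρ θ, HasDerivAt (fun ρ => x ρ θ) (XM_er e1 e2 θ) ρ := by
    intro ρ θ
    have h1 := ((hasDerivAt_id ρ).smul_const (XM_er e1 e2 θ)).const_add (p + s)
    rw [one_smul] at h1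
    exact h1
  have hxθ : ∀ ρ θ, HasDerivAt (fun θ => x ρ θ) (ρ • XM_et e1 e2 θ) θ := by
    intro ρ θ
    exact ((XM_hasDeriv_er e1 e2 θ).const_smul ρ).const_add (p + s)
  have hxc : ∀ ρ, Continuous (fun θ => x ρ θ) := fun ρ =>
    continuous_iff_continuousAt.2 fun θ => (hxθ ρ θ).continuousAt
  have herc : Continuous (XM_er e1 e2) :=
    continuous_iff_continuousAt.2 fun θ => (XM_hasDeriv_er e1 e2 θ).continuousAt
  have hetc : Continuous (XM_et e1 e2) :=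
    continuous_iff_continuousAt.2 fun θ => (XM_hasDeriv_et e1 e2 θ).continuousAt
  -- continuity in θ
  have hc0 : ∀ ρ ∈ Ioo 0 (R - ‖s‖), ContinuousOn (fun θ => w (x ρ θ)) (Ioo 0 om) := fun ρ hρ =>
    h.sm.continuousOn.comp (hxc ρ).continuousOn (fun θ hθ => hxm ρ hρ θ hθ)
  have hc1 : ∀ ρ ∈ Ioo 0 (R - ‖s‖), ContinuousOn (fun θ => fderiv ℝ w (x ρ θ)) (Ioo 0 om) :=
    fun ρ hρ => hw1.continuousOn.comp (hxc ρ).continuousOn (fun θ hθ => hxm ρ hρ θ hθ)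
  have hc2 : ∀ ρ ∈ Ioo 0 (R - ‖s‖),
      ContinuousOn (fun θ => fderiv ℝ (fderiv ℝ w) (x ρ θ)) (Ioo 0 om) :=
    fun ρ hρ => hw2.continuousOn.comp (hxc ρ).continuousOn (fun θ hθ => hxm ρ hρ θ hθ)
  have hcos : Continuous (fun θ : ℝ => Real.cos (κ * θ)) := by fun_prop
  have hcos1 : ∀ θ : ℝ, |Real.cos (κ * θ)| ≤ 1 := fun θ => Real.abs_cos_le_one _
  set W1 : ℝ → ℝ → ℝ := fun ρ θ => fderiv ℝ w (x ρ θ) (XM_er e1 e2 θ) with hW1
  set W2 : ℝ → ℝ → ℝ := fun ρ θ =>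
    fderiv ℝ (fderiv ℝ w) (x ρ θ) (XM_er e1 e2 θ) (XM_er e1 e2 θ) with hW2
  have hcW1 : ∀ ρ ∈ Ioo 0 (R - ‖s‖), ContinuousOn (W1 ρ) (Ioo 0 om) := fun ρ hρ =>
    (hc1 ρ hρ).clm_apply herc.continuousOn
  have hcW2 : ∀ ρ ∈ Ioo 0 (R - ‖s‖), ContinuousOn (W2 ρ) (Ioo 0 om) := fun ρ hρ =>
    ((hc2 ρ hρ).clm_apply herc.continuousOn).clm_apply herc.continuousOn
  have hern : ∀ θ, ‖XM_er e1 e2 θ‖ = 1 := XM_er_norm hF
  have hetn : ∀ θ, ‖XM_et e1 e2 θ‖ = 1 := XM_et_norm hF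
  refine ⟨fun ρ => ∫ θ in (0 : ℝ)..om, W1 ρ θ * Real.cos (κ * θ),
    fun ρ => ∫ θ in (0 : ℝ)..om, W2 ρ θ * Real.cos (κ * θ), fun ρ hρ => ?_⟩
  -- a compact neighbourhood of ρ
  obtain ⟨ε, hε, hε1, hε2⟩ : ∃ ε > 0, 0 < ρ - ε ∧ ρ + ε < R - ‖s‖ := by
    refine ⟨min (ρ / 2) ((R - ‖s‖ - ρ) / 2), ?_, ?_, ?_⟩
    · exact lt_min (by linarith [hρ.1]) (by linarith [hρ.2])
    · have := min_le_left (ρ / 2) ((R - ‖s‖ - ρ) / 2)
      linarith [hρ.1]
    · have := min_le_right (ρ / 2) ((R - ‖s‖ - ρ) / 2)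
      linarith [hρ.2]
  obtain ⟨C, hC0, hCb⟩ := XM_bounds hF hC h hs hε1 hε2
  have hsubI : ∀ r ∈ Ioo (ρ - ε) (ρ + ε), r ∈ Ioo 0 (R - ‖s‖) := fun r hr =>
    ⟨by linarith [hr.1], by linarith [hr.2]⟩
  have hsubc : ∀ r ∈ Ioo (ρ - ε) (ρ + ε), r ∈ Icc (ρ - ε) (ρ + ε) := fun r hr =>
    ⟨hr.1.le, hr.2.le⟩
  have hρI : ρ ∈ Ioo (ρ - ε) (ρ + ε) := ⟨by linarith, by linarith⟩
  have hmulcos : ∀ (A : ℝ) (θ : ℝ), |A| ≤ C → |A * Real.cos (κ * θ)| ≤ C := by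
    intro A θ hA
    rw [abs_mul]
    calc |A| * |Real.cos (κ * θ)| ≤ C * 1 :=
          mul_le_mul hA (hcos1 θ) (abs_nonneg _) hC0
      _ = C := mul_one C
  have hbW1 : ∀ r ∈ Ioo (ρ - ε) (ρ + ε), ∀ θ ∈ Ioo 0 om, |W1 r θ| ≤ C := by
    intro r hr θ hθ
    have h1 := (fderiv ℝ w (x r θ)).le_opNorm (XM_er e1 e2 θ)
    rw [hern, mul_one] at h1
    exact h1.trans (hCb r (hsubc r hr) θ hθ).2.1
  have hbW2 : ∀ r ∈ Ioo (ρ - ε) (ρ + ε), ∀ θ ∈ Ioo 0 om, |W2 r θ| ≤ C := by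
    intro r hr θ hθ
    exact (hCb r (hsubc r hr) θ hθ).2.2.1 _ _ (hern θ).le (hern θ).le
  refine ⟨?_, ?_, ?_⟩
  · refine XM_deriv hom hε (C := C) (F := fun r θ => w (x r θ) * Real.cos (κ * θ))
      (F' := fun r θ => W1 r θ * Real.cos (κ * θ)) ?_ ?_ ?_ ?_ ?_
    · exact fun r hr => (hc0 r (hsubI r hr)).mul hcos.continuousOn
    · exact (hcW1 ρ hρ).mul hcos.continuousOn
    · exact fun r hr θ hθ => hmulcos _ _ (hCb r (hsubc r hr) θ hθ).1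
    · exact fun r hr θ hθ => hmulcos _ _ (hbW1 r hr θ hθ)
    · intro r hr θ hθ
      exact ((hd0 _ (hxm r (hsubI r hr) θ hθ)).comp_hasDerivAt r (hxρ r θ)).mul_const _
  · refine XM_deriv hom hε (C := C) (F := fun r θ => W1 r θ * Real.cos (κ * θ))
      (F' := fun r θ => W2 r θ * Real.cos (κ * θ)) ?_ ?_ ?_ ?_ ?_
    · exact fun r hr => (hcW1 r (hsubI r hr)).mul hcos.continuousOn
    · exact (hcW2 ρ hρ).mul hcos.continuousOn
    · exact fun r hr θ hθ => hmulcos _ _ (hbW1 r hr θ hθ)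
    · exact fun r hr θ hθ => hmulcos _ _ (hbW2 r hr θ hθ)
    · intro r hr θ hθ
      have h1 : HasDerivAt (fun r => fderiv ℝ w (x r θ))
          (fderiv ℝ (fderiv ℝ w) (x r θ) (XM_er e1 e2 θ)) r :=
        (hd1 _ (hxm r (hsubI r hr) θ hθ)).comp_hasDerivAt r (hxρ r θ)
      have h2 := h1.clm_apply (hasDerivAt_const r (XM_er e1 e2 θ))
      simp only [map_zero, add_zero] at h2
      exact h2.mul_const _
  -- the ODE
  have hρ0 : ρ ≠ 0 := hρ.1.ne'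
  have hρc : ρ ∈ Icc (ρ - ε) (ρ + ε) := hsubc ρ hρI
  set B : ℝ → E d →L[ℝ] E d →L[ℝ] ℝ := fun θ => fderiv ℝ (fderiv ℝ w) (x ρ θ) with hB
  set D : ℝ → E d →L[ℝ] ℝ := fun θ => fderiv ℝ w (x ρ θ) with hD
  set f : ℝ → ℝ := fun θ => ρ * D θ (XM_et e1 e2 θ) * Real.cos (κ * θ) +
    κ * w (x ρ θ) * Real.sin (κ * θ) with hf
  set f' : ℝ → ℝ := fun θ => (ρ ^ 2 * B θ (XM_et e1 e2 θ) (XM_et e1 e2 θ) - ρ * W1 ρ θ +
    κ ^ 2 * w (x ρ θ)) * Real.cos (κ * θ) with hf'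
  have hderiv : ∀ θ ∈ Ioo 0 om, HasDerivAt f (f' θ) θ := by
    intro θ hθ
    have hxM := hxm ρ hρ θ hθ
    have h1 : HasDerivAt (fun θ => D θ) (B θ (ρ • XM_et e1 e2 θ)) θ :=
      (hd1 _ hxM).comp_hasDerivAt θ (hxθ ρ θ)
    have h2 := h1.clm_apply (XM_hasDeriv_et e1 e2 θ)
    have h3 : HasDerivAt (fun θ => w (x ρ θ)) (D θ (ρ • XM_et e1 e2 θ)) θ :=
      (hd0 _ hxM).comp_hasDerivAt θ (hxθ ρ θ)
    have hlin : HasDerivAt (fun θ : ℝ => κ * θ) κ θ := by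
      simpa using (hasDerivAt_id θ).const_mul κ
    have h4 := hlin.cos
    have h5 := hlin.sin
    have h6 := ((h2.const_mul ρ).mul h4).add ((h3.const_mul κ).mul h5)
    refine h6.congr_deriv ?_
    simp only [hf', hW1, hD, map_smul, map_neg, smul_apply, smul_eq_mul]
    ring
  have hsum : ∀ θ, B θ (XM_er e1 e2 θ) (XM_er e1 e2 θ) + B θ (XM_et e1 e2 θ) (XM_et e1 e2 θ) =
      B θ e1 e1 + B θ e2 e2 := by
    intro θ
    have h1 := Real.sin_sq_add_cos_sq θ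
    simp only [XM_er, XM_et, map_add, map_smul, add_apply, smul_apply, smul_eq_mul]
    linear_combination (B θ e1 e1 + B θ e2 e2) * h1
  have hgB : ∀ θ ∈ Ioo 0 om, g (x ρ θ) = -(W2 ρ θ + B θ (XM_et e1 e2 θ) (XM_et e1 e2 θ)) := by
    intro θ hθ
    have hxM := hxm ρ hρ θ hθ
    have hcd : ContDiffAt ℝ 2 w (x ρ θ) := (h.sm.contDiffAt (hU.mem_nhds hxM)).of_le XM_two
    have h1 := hg _ hxM
    rw [XM_pd_pd hcd, XM_pd_pd hcd] at h1
    have h2 := hsum θ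
    change B θ e1 e1 + B θ e2 e2 = - g (x ρ θ) at h1
    change W2 ρ θ + _ = _ at h2
    linarith
  -- integrability
  have hi0 : IntervalIntegrable (fun θ => w (x ρ θ) * Real.cos (κ * θ)) volume 0 om :=
    XM_int hom ((hc0 ρ hρ).mul hcos.continuousOn)
      (fun θ hθ => hmulcos _ _ (hCb ρ hρc θ hθ).1)
  have hi1 : IntervalIntegrable (fun θ => W1 ρ θ * Real.cos (κ * θ)) volume 0 om :=
    XM_int hom ((hcW1 ρ hρ).mul hcos.continuousOn)
      (fun θ hθ => hmulcos _ _ (hbW1 ρ hρI θ hθ))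
  have hi2 : IntervalIntegrable (fun θ => W2 ρ θ * Real.cos (κ * θ)) volume 0 om :=
    XM_int hom ((hcW2 ρ hρ).mul hcos.continuousOn)
      (fun θ hθ => hmulcos _ _ (hbW2 ρ hρI θ hθ))
  have hi3 : IntervalIntegrable (fun θ => B θ (XM_et e1 e2 θ) (XM_et e1 e2 θ) *
      Real.cos (κ * θ)) volume 0 om :=
    XM_int hom ((((hc2 ρ hρ).clm_apply hetc.continuousOn).clm_apply hetc.continuousOn).mul
      hcos.continuousOn)
      (fun θ hθ => hmulcos _ _ ((hCb ρ hρc θ hθ).2.2.1 _ _ (hetn θ).le (hetn θ).le))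
  have hf'e : f' = fun θ => ρ ^ 2 * (B θ (XM_et e1 e2 θ) (XM_et e1 e2 θ) * Real.cos (κ * θ)) -
      ρ * (W1 ρ θ * Real.cos (κ * θ)) + κ ^ 2 * (w (x ρ θ) * Real.cos (κ * θ)) := by
    funext θ
    simp only [hf']
    ring
  have hint : IntervalIntegrable f' volume 0 om := by
    rw [hf'e]
    exact ((hi3.const_mul _).sub (hi1.const_mul _)).add (hi0.const_mul _)
  -- limits at the ends
  have hf_le : ∀ θ ∈ Ioo 0 om, ∀ n : E d, ∀ c : ℝ, |D θ n| ≤ C * (ρ * c) →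
      |f θ| ≤ ρ * (C * (ρ * c) + C * ‖XM_et e1 e2 θ - n‖) + |κ| * C * |Real.sin (κ * θ)| ∧
      |f θ| ≤ ρ * (C * (ρ * c) + C * ‖XM_et e1 e2 θ + n‖) + |κ| * C * |Real.sin (κ * θ)| := by
    intro θ hθ n c hn
    have hDn : ∀ z : E d, |D θ z| ≤ C * ‖z‖ := fun z =>
      ((D θ).le_opNorm z).trans (mul_le_mul_of_nonneg_right (hCb ρ hρc θ hθ).2.1 (norm_nonneg _))
    have hgen : ∀ A : ℝ, |D θ (XM_et e1 e2 θ)| ≤ A →
        |f θ| ≤ ρ * A + |κ| * C * |Real.sin (κ * θ)| := by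
      intro A hA
      have h1 : |ρ * D θ (XM_et e1 e2 θ) * Real.cos (κ * θ)| ≤ ρ * A := by
        rw [abs_mul, abs_mul, abs_of_pos hρ.1]
        calc ρ * |D θ (XM_et e1 e2 θ)| * |Real.cos (κ * θ)|
            ≤ ρ * |D θ (XM_et e1 e2 θ)| * 1 :=
              mul_le_mul_of_nonneg_left (hcos1 θ) (mul_nonneg hρ.1.le (abs_nonneg _))
          _ ≤ ρ * A := by rw [mul_one]; exact mul_le_mul_of_nonneg_left hA hρ.1.le
      have h2 : |κ * w (x ρ θ) * Real.sin (κ * θ)| ≤ |κ| * C * |Real.sin (κ * θ)| := by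
        rw [abs_mul, abs_mul]
        exact mul_le_mul_of_nonneg_right
          (mul_le_mul_of_nonneg_left (hCb ρ hρc θ hθ).1 (abs_nonneg _)) (abs_nonneg _)
      exact (abs_add_le _ _).trans (add_le_add h1 h2)
    refine ⟨hgen _ ?_, hgen _ ?_⟩
    · have h1 : XM_et e1 e2 θ = n + (XM_et e1 e2 θ - n) := by abel
      have h2 : |D θ (XM_et e1 e2 θ)| ≤ |D θ n| + |D θ (XM_et e1 e2 θ - n)| := by
        conv_lhs => rw [h1, map_add]
        exact abs_add_le _ _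
      exact h2.trans (add_le_add hn (hDn _))
    · have h1 : XM_et e1 e2 θ = -n + (XM_et e1 e2 θ + n) := by abel
      have h2 : |D θ (XM_et e1 e2 θ)| ≤ |D θ n| + |D θ (XM_et e1 e2 θ + n)| := by
        conv_lhs => rw [h1, map_add]
        refine (abs_add_le _ _).trans (le_of_eq ?_)
        rw [map_neg, abs_neg]
      exact h2.trans (add_le_add hn (hDn _))
  have hlim0 : Tendsto f (𝓝[>] 0) (𝓝 0) := by
    have hcont : Continuous (fun θ : ℝ => ρ * (C * (ρ * Real.sin θ) +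
        C * ‖XM_et e1 e2 θ + P.ν i‖) + |κ| * C * |Real.sin (κ * θ)|) := by fun_prop
    have h0 : ρ * (C * (ρ * Real.sin 0) +
        C * ‖XM_et e1 e2 0 + P.ν i‖) + |κ| * C * |Real.sin (κ * 0)| = 0 := by
      simp only [hF.νi, XM_et]
      simp
    have h1 : Tendsto (fun θ : ℝ => ρ * (C * (ρ * Real.sin θ) +
        C * ‖XM_et e1 e2 θ + P.ν i‖) + |κ| * C * |Real.sin (κ * θ)|) (𝓝[>] 0) (𝓝 0) := by
      have h2 := hcont.tendsto 0
      rw [h0] at h2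
      exact h2.mono_left nhdsWithin_le_nhds
    refine squeeze_zero_norm' ?_ h1
    filter_upwards [Ioo_mem_nhdsGT hom] with θ hθ
    exact (hf_le θ hθ (P.ν i) _ (hCb ρ hρc θ hθ).2.2.2.1).2
  have hlim1 : Tendsto f (𝓝[<] om) (𝓝 0) := by
    have hcont : Continuous (fun θ : ℝ => ρ * (C * (ρ * Real.sin (om - θ)) +
        C * ‖XM_et e1 e2 θ - P.ν j‖) + |κ| * C * |Real.sin (κ * θ)|) := by fun_prop
    have h0 : ρ * (C * (ρ * Real.sin (om - om)) +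
        C * ‖XM_et e1 e2 om - P.ν j‖) + |κ| * C * |Real.sin (κ * om)| = 0 := by
      have h3 : Real.sin (κ * om) = 0 := by
        have : κ * om = k * Real.pi := by rw [hκ]; field_simp
        rw [this]
        exact Real.sin_nat_mul_pi k
      simp only [hF.νj, XM_et, h3]
      simp
    have h1 : Tendsto (fun θ : ℝ => ρ * (C * (ρ * Real.sin (om - θ)) +
        C * ‖XM_et e1 e2 θ - P.ν j‖) + |κ| * C * |Real.sin (κ * θ)|) (𝓝[<] om) (𝓝 0) := by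
      have h2 := hcont.tendsto om
      rw [h0] at h2
      exact h2.mono_left nhdsWithin_le_nhds
    refine squeeze_zero_norm' ?_ h1
    filter_upwards [Ioo_mem_nhdsLT hom] with θ hθ
    exact (hf_le θ hθ (P.ν j) _ (hCb ρ hρc θ hθ).2.2.2.2).1
  have hzero := intervalIntegral.integral_eq_sub_of_hasDerivAt_of_tendsto hom hderiv hint
    hlim0 hlim1
  rw [sub_zero, hf'e] at hzero
  have e1' := intervalIntegral.integral_add ((hi3.const_mul (ρ ^ 2)).sub (hi1.const_mul ρ))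
    (hi0.const_mul (κ ^ 2))
  have e2' := intervalIntegral.integral_sub (hi3.const_mul (ρ ^ 2)) (hi1.const_mul ρ)
  rw [e1', e2', intervalIntegral.integral_const_mul, intervalIntegral.integral_const_mul,
    intervalIntegral.integral_const_mul] at hzero
  have e3' : ∫ θ in (0 : ℝ)..om, g (x ρ θ) * Real.cos (κ * θ) =
      -((∫ θ in (0 : ℝ)..om, W2 ρ θ * Real.cos (κ * θ)) +
        ∫ θ in (0 : ℝ)..om, B θ (XM_et e1 e2 θ) (XM_et e1 e2 θ) * Real.cos (κ * θ)) := by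
    rw [← intervalIntegral.integral_add hi2 hi3, ← intervalIntegral.integral_neg]
    rw [intervalIntegral.integral_of_le hom.le, intervalIntegral.integral_of_le hom.le,
      integral_Ioc_eq_integral_Ioo, integral_Ioc_eq_integral_Ioo]
    refine setIntegral_congr_fun measurableSet_Ioo fun θ hθ => ?_
    rw [hgB θ hθ]
    ring
  rw [e3']
  field_simp
  linarith

end

end Pool.Agent.Lib_helper38.Robin
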