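import Pool.Agent.Lib_helper13.Robin.Geo

/-! Block Q1 (helper38). -/

namespace Pool.Agent.Lib_helper38.Robin

open MeasureTheory Set Metric Filter Topology
open scoped RealInnerProductSpace ContDiff
open Pool.Agent.Lib_helper13.Robin

noncomputable section

variable {d m : ℕ} (P : PD d m)

theorem Q1_two : (2 : WithTop ℕ∞) ≤ ∞ := by
  exact ENat.LEInfty.out

/-- second partials as values of the second derivative -/
theorem Q1_pd_pd {f : E d → ℝ} {x : E d} (hf : ContDiffAt ℝ 2 f x) (a b : E d) :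
    pd a (pd b f) x = fderiv ℝ (fderiv ℝ f) x a b := by
  have h1 : DifferentiableAt ℝ (fderiv ℝ f) x :=
    (hf.fderiv_right (m := 1) (by norm_num)).differentiableAt one_ne_zero
  unfold pd
  have h2 : HasFDerivAt (fun y => fderiv ℝ f y b)
      ((ContinuousLinearMap.apply ℝ ℝ b).comp (fderiv ℝ (fderiv ℝ f) x)) x :=
    (ContinuousLinearMap.apply ℝ ℝ b).hasFDerivAt.comp x h1.hasFDerivAt
  rw [h2.fderiv]
  rfl

theorem Q1_ext {F : Type*} [NormedAddCommGroup F] [NormedSpace ℝ F] {A B : E d →L[ℝ] F}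
    (h : ∀ j, A (bv j) = B (bv j)) : A = B := by
  apply ContinuousLinearMap.coe_injective
  refine (EuclideanSpace.basisFun (Fin d) ℝ).toBasis.ext fun j => ?_
  simpa using h j

theorem Q1_grad {f : E d → ℝ} {x : E d} (h : gradient f x = 0) : fderiv ℝ f x = 0 := by
  unfold gradient at h
  exact (LinearIsometryEquiv.map_eq_zero_iff _).1 h

/-- **Q1.** -/
theorem quad_of_third {v : E d → ℝ} (hv : ContDiffOn ℝ ∞ v P.Om)
    (h : ∀ x ∈ P.Om, ∀ j k, gradient (pd (bv k) (pd (bv j) v)) x = 0) :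
    ∃ (c : ℝ) (g : E d) (M : E d →ₗ[ℝ] E d), M.IsSymmetric ∧
      ∀ x ∈ P.Om, v x = c + ⟪g, x⟫ - (1 / 2) * ⟪M x, x⟫ := by
  obtain ⟨x0, hx0⟩ := P.nonempty_Om
  have hO := P.isOpen_Om
  have hpre : IsPreconnected P.Om := P.convex_Om.isPreconnected
  have hvA : ∀ x ∈ P.Om, ContDiffAt ℝ ∞ v x := fun x hx => hv.contDiffAt (hO.mem_nhds hx)
  have hF : ContDiffOn ℝ ∞ (fderiv ℝ v) P.Om := hv.fderiv_of_isOpen hO (by norm_num)
  have hF2 : ContDiffOn ℝ ∞ (fderiv ℝ (fderiv ℝ v)) P.Om := hF.fderiv_of_isOpen hO (by norm_num)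
  -- second derivative is constant
  have hc : ∀ x ∈ P.Om, fderiv ℝ (fderiv ℝ v) x = fderiv ℝ (fderiv ℝ v) x0 := by
    intro x hx
    refine Q1_ext fun k => Q1_ext fun j => ?_
    have hd : DifferentiableOn ℝ (pd (bv k) (pd (bv j) v)) P.Om := by
      have h1 : DifferentiableOn ℝ (fun y => fderiv ℝ (fderiv ℝ v) y (bv k) (bv j)) P.Om := by
        have h2 := hF2.differentiableOn (by norm_num)
        exact (h2.clm_apply (differentiableOn_const _)).clm_apply (differentiableOn_const _)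
      exact h1.congr fun y hy => Q1_pd_pd ((hvA y hy).of_le Q1_two) _ _
    have h3 := hO.is_const_of_fderiv_eq_zero hpre hd (fun y hy => Q1_grad (h y hy j k)) hx hx0
    rw [Q1_pd_pd ((hvA x hx).of_le Q1_two),
      Q1_pd_pd ((hvA x0 hx0).of_le Q1_two)] at h3
    exact h3
  set B : E d →L[ℝ] E d →L[ℝ] ℝ := fderiv ℝ (fderiv ℝ v) x0 with hB
  have hsymm : ∀ a b, B a b = B b a := by
    intro a b
    have h1 : IsSymmSndFDerivAt ℝ v x0 := (hvA x0 hx0).isSymmSndFDerivAt (by simpa using Q1_two)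
    exact h1 a b
  -- the first derivative is affine
  have hl : ∀ x ∈ P.Om, fderiv ℝ v x - B x = fderiv ℝ v x0 - B x0 := by
    intro x hx
    refine hO.is_const_of_fderiv_eq_zero (𝕜 := ℝ) (f := fun y => fderiv ℝ v y - B y) hpre ?_ ?_ hx hx0
    · exact (hF.differentiableOn (by norm_num)).sub B.differentiable.differentiableOn
    · intro y hy
      have h1 : DifferentiableAt ℝ (fderiv ℝ v) y :=
        (hF.differentiableOn (by norm_num)).differentiableAt (hO.mem_nhds hy)
      have h2 : HasFDerivAt (fun y => fderiv ℝ v y - B y) (fderiv ℝ (fderiv ℝ v) y - B) y :=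
        h1.hasFDerivAt.sub B.hasFDerivAt
      show fderiv ℝ (fun y => fderiv ℝ v y - B y) y = 0
      rw [h2.fderiv, hc y hy, sub_self]
  set ℓ : E d →L[ℝ] ℝ := fderiv ℝ v x0 - B x0 with hℓ
  have hq : ∀ x ∈ P.Om, v x - ℓ x - (1 / 2) * B x x = v x0 - ℓ x0 - (1 / 2) * B x0 x0 := by
    intro x hx
    have hder : ∀ y ∈ P.Om, HasFDerivAt (fun y => v y - ℓ y - (1 / 2) * B y y)
        (0 : E d →L[ℝ] ℝ) y := by
      intro y hy
      have h1 : HasFDerivAt v (fderiv ℝ v y) y :=
        ((hvA y hy).differentiableAt (by norm_num)).hasFDerivAt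
      have h2 : HasFDerivAt (fun y => B y y) (B y + (B.flip y)) y := by
        have h3 := (B.hasFDerivAt (x := y)).clm_apply (hasFDerivAt_id y)
        refine h3.congr_fderiv ?_
        ext z
        simp
      have h4 := (h1.sub ℓ.hasFDerivAt).sub (h2.const_mul (1 / 2))
      refine h4.congr_fderiv ?_
      ext z
      have h5 := congrArg (fun A : E d →L[ℝ] ℝ => A z) (hl y hy)
      simp only [sub_apply, add_apply,
        smul_apply, ContinuousLinearMap.flip_apply, smul_eq_mul,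
        zero_apply] at h5 ⊢
      rw [hsymm z y]
      have h6 : ℓ z = fderiv ℝ v y z - B y z := by
        rw [← sub_apply, hl y hy]
      rw [h6]
      ring
    refine hO.is_const_of_fderiv_eq_zero (𝕜 := ℝ) (f := fun y => v y - ℓ y - (1 / 2) * B y y) hpre
      (fun y hy => (hder y hy).differentiableAt.differentiableWithinAt) (fun y hy => ?_) hx hx0
    exact (hder y hy).fderiv
  set D := (InnerProductSpace.toDual ℝ (E d)).symm with hD
  have hDi : ∀ (A : E d →L[ℝ] ℝ) (z : E d), ⟪D A, z⟫ = A z := fun A z =>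
    InnerProductSpace.toDual_symm_apply
  refine ⟨v x0 - ℓ x0 - (1 / 2) * B x0 x0, D ℓ,
    { toFun := fun x => - D (B x)
      map_add' := fun x y => by rw [map_add, map_add, neg_add]
      map_smul' := fun c x => by
        rw [map_smul, map_smulₛₗ]
        simp }, ?_, ?_⟩
  · intro x y
    show ⟪- D (B x), y⟫ = ⟪x, - D (B y)⟫
    rw [inner_neg_left, inner_neg_right, hDi, real_inner_comm (D (B y)) x, hDi, hsymm]
  · intro x hx
    show v x = v x0 - ℓ x0 - (1 / 2) * B x0 x0 + ⟪D ℓ, x⟫ - (1 / 2) * ⟪- D (B x), x⟫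
    rw [inner_neg_left, hDi, hDi, ← hq x hx]
    ring

end

end Pool.Agent.Lib_helper38.Robin
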